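import Pool.Agent.Helper4.AF.Near

/-!
# Project AF, block R4: measurability of the functional `rr`
-/

set_option autoImplicit false
open MeasureTheory Real Set Filter
open scoped ENNReal

namespace Pool.Agent.Helper4.AF

open Pool.Agent.Helper18.UC (nn sqo)
open Pool.Agent.Helper95.AF

/-- the orbit depends continuously on the force and the point -/
theorem po_cont (a : ℝ) (n : ℕ) : Continuous fun p : (ℕ → ℝ) × (ℝ × ℝ) => po a p.1 n p.2 := by
  induction n with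
  | zero => exact continuous_snd
  | succ n ih =>
    show Continuous fun p : (ℕ → ℝ) × (ℝ × ℝ) => st a (p.1 n) (po a p.1 n p.2)
    unfold st
    have h1 : Continuous fun p : (ℕ → ℝ) × (ℝ × ℝ) => p.1 n := (continuous_apply n).comp continuous_fst
    fun_prop

theorem pM_cont (a : ℝ) (n : ℕ) (i j : Fin 2) : Continuous fun p : (ℕ → ℝ) × (ℝ × ℝ) => pM a p.1 n p.2 i j := by
  induction n generalizing i j with
  | zero => exact continuous_const
  | succ n ih =>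
    show Continuous fun p : (ℕ → ℝ) × (ℝ × ℝ) => (mt a (po a p.1 n p.2).1 * pM a p.1 n p.2) i j
    have h1 := po_cont a n
    have h2 : ∀ k l : Fin 2, Continuous fun p : (ℕ → ℝ) × (ℝ × ℝ) => mt a (po a p.1 n p.2).1 k l := by
      intro k l
      fin_cases k <;> fin_cases l <;> simp [Pool.Agent.Helper95.AF.mt] <;> fun_prop
    simp only [Matrix.mul_apply, Fin.sum_univ_two]
    exact ((h2 i 0).mul (ih 0 j)).add ((h2 i 1).mul (ih 1 j))

/-- the size of the cocycle is jointly measurable -/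
theorem log_meas (a : ℝ) (n : ℕ) : Measurable fun p : (ℕ → ℝ) × (ℝ × ℝ) => Real.log (nn (pM a p.1 n p.2)) := by
  refine Real.measurable_log.comp (Continuous.measurable ?_)
  unfold nn
  exact (((pM_cont a n 0 0).abs.add (pM_cont a n 0 1).abs).add (pM_cont a n 1 0).abs).add (pM_cont a n 1 1).abs

theorem meas_vol (a : ℝ) (n : ℕ) (r ρ : ℝ) (c : ℝ × ℝ) :
    Measurable fun b : ℕ → ℝ => volume (bad a b n r ∩ sqo c ρ) := by
  have hS : MeasurableSet {p : (ℕ → ℝ) × (ℝ × ℝ) | Real.log (nn (pM a p.1 n p.2)) < r ∧ p.2 ∈ sqo c ρ} := by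
    refine (measurableSet_lt (log_meas a n) measurable_const).inter ?_
    exact measurable_snd (measurableSet_Ico.prod measurableSet_Ico)
  exact measurable_measure_prodMk_left (ν := (volume : Measure (ℝ × ℝ))) hS

/-- it is enough to look at the squares with rational corners -/
theorem den_iff (a : ℝ) (b : ℕ → ℝ) (n : ℕ) (ρ δ r : ℝ) :
    Den a b n ρ δ r ↔ ∀ c : ℚ × ℚ, volume (bad a b n r ∩ sqo ((c.1 : ℝ), (c.2 : ℝ)) ρ) ≤ ENNReal.ofReal (δ * ρ ^ 2) := by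
  refine ⟨fun h c => h _, fun h c => ?_⟩
  set B := bad a b n r
  -- open squares
  have h1 : volume (B ∩ sqo c ρ) ≤ volume (B ∩ (Ioo c.1 (c.1 + ρ) ×ˢ Ioo c.2 (c.2 + ρ))) := by
    have h2 : (sqo c ρ : Set (ℝ × ℝ)) =ᵐ[volume] (Ioo c.1 (c.1 + ρ) ×ˢ Ioo c.2 (c.2 + ρ) : Set (ℝ × ℝ)) :=
      Measure.set_prod_ae_eq Ioo_ae_eq_Ico.symm Ioo_ae_eq_Ico.symm
    exact le_of_eq (measure_congr ((ae_eq_refl B).inter h2))
  refine h1.trans ?_
  set s : ℕ → Set (ℝ × ℝ) := fun m => Ioo (c.1 + 1 / ((m : ℝ) + 1)) (c.1 + ρ - 1 / ((m : ℝ) + 1)) ×ˢ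
    Ioo (c.2 + 1 / ((m : ℝ) + 1)) (c.2 + ρ - 1 / ((m : ℝ) + 1)) with hs
  have hanti : ∀ m m' : ℕ, m ≤ m' → 1 / ((m' : ℝ) + 1) ≤ 1 / ((m : ℝ) + 1) := fun m m' hm =>
    one_div_le_one_div_of_le (by positivity) (by
      have : (m : ℝ) ≤ m' := by exact_mod_cast hm
      linarith)
  have hmono : Monotone fun m => B ∩ s m := by
    intro m m' hm
    refine inter_subset_inter_right B (prod_mono (Ioo_subset_Ioo ?_ ?_) (Ioo_subset_Ioo ?_ ?_)) <;>
      have := hanti m m' hm <;> linarith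
  have hU : B ∩ (Ioo c.1 (c.1 + ρ) ×ˢ Ioo c.2 (c.2 + ρ)) ⊆ ⋃ m, B ∩ s m := by
    rintro x ⟨hxB, ⟨hx1, hx2⟩⟩
    obtain ⟨e, he0, he⟩ : ∃ e : ℝ, 0 < e ∧ ∀ t ∈ ({x.1 - c.1, c.1 + ρ - x.1, x.2 - c.2, c.2 + ρ - x.2} : Set ℝ), e ≤ t := by
      refine ⟨min (min (x.1 - c.1) (c.1 + ρ - x.1)) (min (x.2 - c.2) (c.2 + ρ - x.2)), ?_, ?_⟩
      · rw [lt_min_iff, lt_min_iff, lt_min_iff]
        refine ⟨⟨?_, ?_⟩, ⟨?_, ?_⟩⟩
        · linarith [hx1.1]
        · linarith [hx1.2]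
        · linarith [hx2.1]
        · linarith [hx2.2]
      · rintro t (rfl | rfl | rfl | rfl)
        · exact (min_le_left _ _).trans (min_le_left _ _)
        · exact (min_le_left _ _).trans (min_le_right _ _)
        · exact (min_le_right _ _).trans (min_le_left _ _)
        · exact (min_le_right _ _).trans (min_le_right _ _)
    obtain ⟨m, hm⟩ := exists_nat_one_div_lt he0
    have e1 := he (x.1 - c.1) (by simp)
    have e2 := he (c.1 + ρ - x.1) (by simp)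
    have e3 := he (x.2 - c.2) (by simp)
    have e4 := he (c.2 + ρ - x.2) (by simp)
    rw [mem_iUnion]
    refine ⟨m, hxB, ⟨⟨?_, ?_⟩, ⟨?_, ?_⟩⟩⟩
    · show c.1 + 1 / ((m : ℝ) + 1) < x.1
      linarith
    · show x.1 < c.1 + ρ - 1 / ((m : ℝ) + 1)
      linarith
    · show c.2 + 1 / ((m : ℝ) + 1) < x.2
      linarith
    · show x.2 < c.2 + ρ - 1 / ((m : ℝ) + 1)
      linarith
  refine (measure_mono hU).trans ?_
  rw [hmono.measure_iUnion]
  refine iSup_le fun m => ?_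
  have hpos : 0 < 1 / ((m : ℝ) + 1) := by positivity
  obtain ⟨c1, hc1, hc1'⟩ := exists_rat_btwn (show c.1 < c.1 + 1 / ((m : ℝ) + 1) by linarith)
  obtain ⟨c2, hc2, hc2'⟩ := exists_rat_btwn (show c.2 < c.2 + 1 / ((m : ℝ) + 1) by linarith)
  refine (measure_mono ?_).trans (h (c1, c2))
  refine inter_subset_inter_right B ?_
  rintro x ⟨⟨k1, k2⟩, ⟨k3, k4⟩⟩
  have k1 : c.1 + 1 / ((m : ℝ) + 1) < x.1 := k1
  have k2 : x.1 < c.1 + ρ - 1 / ((m : ℝ) + 1) := k2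
  have k3 : c.2 + 1 / ((m : ℝ) + 1) < x.2 := k3
  have k4 : x.2 < c.2 + ρ - 1 / ((m : ℝ) + 1) := k4
  refine ⟨⟨?_, ?_⟩, ⟨?_, ?_⟩⟩
  · show (c1 : ℝ) ≤ x.1
    linarith
  · show x.1 < (c1 : ℝ) + ρ
    linarith
  · show (c2 : ℝ) ≤ x.2
    linarith
  · show x.2 < (c2 : ℝ) + ρ
    linarith

theorem meas_den (a : ℝ) (n : ℕ) (ρ δ r : ℝ) : MeasurableSet {b : ℕ → ℝ | Den a b n ρ δ r} := by
  have e : {b : ℕ → ℝ | Den a b n ρ δ r} =
      ⋂ c : ℚ × ℚ, {b | volume (bad a b n r ∩ sqo ((c.1 : ℝ), (c.2 : ℝ)) ρ) ≤ ENNReal.ofReal (δ * ρ ^ 2)} := by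
    ext b
    rw [mem_iInter]
    exact den_iff a b n ρ δ r
  rw [e]
  exact MeasurableSet.iInter fun c => measurableSet_le (meas_vol a n r ρ _) measurable_const

theorem den_anti {a : ℝ} {b : ℕ → ℝ} {n : ℕ} {ρ δ r r' : ℝ} (h : Den a b n ρ δ r) (hr : r' ≤ r) : Den a b n ρ δ r' := fun c =>
  (measure_mono (inter_subset_inter_left _ fun z (hz : Real.log (nn (pM a b n z)) < r') => hz.trans_le hr)).trans (h c)

theorem den_zero (a : ℝ) (b : ℕ → ℝ) (n : ℕ) (ρ δ : ℝ) : Den a b n ρ δ 0 := fun c => by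
  have h : bad a b n 0 = ∅ := by
    refine eq_empty_of_forall_notMem fun z (hz : Real.log (nn (pM a b n z)) < 0) => ?_
    have h1 := two_le_pM a b n z
    have h2 := Real.log_nonneg (show (1 : ℝ) ≤ nn (pM a b n z) by linarith)
    linarith
  rw [h, empty_inter, measure_empty]
  exact bot_le

/-- **R4**: measurability -/
theorem rr_meas (a : ℝ) (n : ℕ) {ρ δ cap : ℝ} (hc : 0 ≤ cap) (_hδ : 0 ≤ δ) :
    Measurable (rr a n ρ δ cap) := by
  refine measurable_of_Ioi fun t => ?_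
  have hne : ∀ b : ℕ → ℝ, {r : ℝ | 0 ≤ r ∧ r ≤ cap ∧ Den a b n ρ δ r}.Nonempty := fun b => ⟨0, le_rfl, hc, den_zero a b n ρ δ⟩
  have hbdd : ∀ b : ℕ → ℝ, BddAbove {r : ℝ | 0 ≤ r ∧ r ≤ cap ∧ Den a b n ρ δ r} := fun b => ⟨cap, fun r hr => hr.2.1⟩
  rcases lt_or_ge t 0 with ht | ht
  · have e : rr a n ρ δ cap ⁻¹' Ioi t = Set.univ := by
      refine eq_univ_of_forall fun b => ?_
      show t < rr a n ρ δ cap b
      exact ht.trans_le (le_csSup (hbdd b) ⟨le_rfl, hc, den_zero a b n ρ δ⟩)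
    rw [e]
    exact MeasurableSet.univ
  · have e : rr a n ρ δ cap ⁻¹' Ioi t = ⋃ q : ℚ, {b : ℕ → ℝ | (t < q ∧ (q : ℝ) ≤ cap) ∧ Den a b n ρ δ q} := by
      ext b
      rw [mem_iUnion]
      constructor
      · intro h
        obtain ⟨r, hr, htr⟩ := exists_lt_of_lt_csSup (hne b) (show t < sSup {r : ℝ | 0 ≤ r ∧ r ≤ cap ∧ Den a b n ρ δ r} from h)
        obtain ⟨q, hq1, hq2⟩ := exists_rat_btwn htr
        exact ⟨q, ⟨hq1, hq2.le.trans hr.2.1⟩, den_anti hr.2.2 hq2.le⟩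
      · rintro ⟨q, ⟨hq1, hq2⟩, hq3⟩
        show t < rr a n ρ δ cap b
        exact hq1.trans_le (le_csSup (hbdd b) ⟨ht.trans hq1.le, hq2, hq3⟩)
    rw [e]
    refine MeasurableSet.iUnion fun q => ?_
    by_cases hq : t < q ∧ (q : ℝ) ≤ cap
    · have e2 : {b : ℕ → ℝ | (t < q ∧ (q : ℝ) ≤ cap) ∧ Den a b n ρ δ q} = {b : ℕ → ℝ | Den a b n ρ δ q} := by
        ext b
        exact ⟨fun h => h.2, fun h => ⟨hq, h⟩⟩
      rw [e2]
      exact meas_den a n ρ δ q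
    · have e2 : {b : ℕ → ℝ | (t < q ∧ (q : ℝ) ≤ cap) ∧ Den a b n ρ δ q} = ∅ := by
        refine eq_empty_of_forall_notMem fun b h => hq h.1
      rw [e2]
      exact MeasurableSet.empty

end Pool.Agent.Helper4.AF
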