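import Pool.Agent.Helper95.AF.Defs

/-!
# Project AF, block R3: dependence of the cocycle on the data
-/

set_option autoImplicit false
open MeasureTheory Real Set Filter
open scoped ENNReal

namespace Pool.Agent.Helper4.AF

open Pool.Agent.Helper18.UC (nn)
open Pool.Agent.Helper95.AF

private theorem nn_nonneg4 (B : Matrix (Fin 2) (Fin 2) ℝ) : 0 ≤ nn B := by
  unfold nn
  positivity

private theorem mt_mul4 (a x : ℝ) (M : Matrix (Fin 2) (Fin 2) ℝ) (j : Fin 2) :
    (mt a x * M) 0 j = (2 + 2 * π * a * Real.cos (2 * π * x)) * M 0 j - M 1 j ∧ (mt a x * M) 1 j = M 0 j := by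
  constructor
  · rw [Matrix.mul_apply, Fin.sum_univ_two]
    simp [Pool.Agent.Helper95.AF.mt]
    ring
  · rw [Matrix.mul_apply, Fin.sum_univ_two]
    simp [Pool.Agent.Helper95.AF.mt]

private theorem nn_mt4 (a x : ℝ) (M : Matrix (Fin 2) (Fin 2) ℝ) :
    nn (mt a x * M) ≤ (|2 + 2 * π * a * Real.cos (2 * π * x)| + 1) * nn M := by
  obtain ⟨v, hv⟩ : ∃ v : ℝ, v = 2 + 2 * π * a * Real.cos (2 * π * x) := ⟨_, rfl⟩
  unfold nn
  rw [(mt_mul4 a x M 0).1, (mt_mul4 a x M 0).2, (mt_mul4 a x M 1).1, (mt_mul4 a x M 1).2, ← hv]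
  have h0 : |v * M 0 0 - M 1 0| ≤ |v| * |M 0 0| + |M 1 0| := by
    rw [← abs_mul]
    exact abs_sub _ _
  have h1 : |v * M 0 1 - M 1 1| ≤ |v| * |M 0 1| + |M 1 1| := by
    rw [← abs_mul]
    exact abs_sub _ _
  nlinarith [mul_nonneg (abs_nonneg v) (abs_nonneg (M 1 0)), mul_nonneg (abs_nonneg v) (abs_nonneg (M 1 1))]

private theorem nn_diff4 (a x a' x' : ℝ) (M M' : Matrix (Fin 2) (Fin 2) ℝ) :
    nn (mt a x * M - mt a' x' * M') ≤ |(2 + 2 * π * a * Real.cos (2 * π * x)) - (2 + 2 * π * a' * Real.cos (2 * π * x'))| * nn M +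
      (|2 + 2 * π * a' * Real.cos (2 * π * x')| + 1) * nn (M - M') := by
  obtain ⟨v, hv⟩ : ∃ v : ℝ, v = 2 + 2 * π * a * Real.cos (2 * π * x) := ⟨_, rfl⟩
  obtain ⟨v', hv'⟩ : ∃ v' : ℝ, v' = 2 + 2 * π * a' * Real.cos (2 * π * x') := ⟨_, rfl⟩
  unfold nn
  simp only [Matrix.sub_apply]
  rw [(mt_mul4 a x M 0).1, (mt_mul4 a x M 0).2, (mt_mul4 a x M 1).1, (mt_mul4 a x M 1).2,
    (mt_mul4 a' x' M' 0).1, (mt_mul4 a' x' M' 0).2, (mt_mul4 a' x' M' 1).1, (mt_mul4 a' x' M' 1).2, ← hv, ← hv']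
  have key : ∀ a b a' b' : ℝ, |v * a - b - (v' * a' - b')| ≤ |v - v'| * |a| + |v'| * |a - a'| + |b - b'| := by
    intro a b a' b'
    have h : v * a - b - (v' * a' - b') = (v - v') * a + v' * (a - a') - (b - b') := by ring
    rw [h, ← abs_mul, ← abs_mul]
    exact (abs_sub _ _).trans (add_le_add_left (abs_add_le _ _) _)
  have h0 := key (M 0 0) (M 1 0) (M' 0 0) (M' 1 0)
  have h1 := key (M 0 1) (M 1 1) (M' 0 1) (M' 1 1)
  nlinarith [mul_nonneg (abs_nonneg v') (abs_nonneg (M 1 0 - M' 1 0)),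
    mul_nonneg (abs_nonneg v') (abs_nonneg (M 1 1 - M' 1 1)),
    mul_nonneg (abs_nonneg (v - v')) (abs_nonneg (M 1 0)),
    mul_nonneg (abs_nonneg (v - v')) (abs_nonneg (M 1 1))]

private theorem nn_sub4 (M M' : Matrix (Fin 2) (Fin 2) ℝ) : |nn M - nn M'| ≤ nn (M - M') := by
  unfold nn
  simp only [Matrix.sub_apply]
  have key : ∀ a b : ℝ, |(|a| - |b|)| ≤ |a - b| := fun a b => abs_abs_sub_abs_le_abs_sub a b
  have h : |M 0 0| + |M 0 1| + |M 1 0| + |M 1 1| - (|M' 0 0| + |M' 0 1| + |M' 1 0| + |M' 1 1|) =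
    (|M 0 0| - |M' 0 0|) + (|M 0 1| - |M' 0 1|) + (|M 1 0| - |M' 1 0|) + (|M 1 1| - |M' 1 1|) := by ring
  rw [h]
  refine (abs_add_le _ _).trans (add_le_add ?_ (key _ _))
  refine (abs_add_le _ _).trans (add_le_add ?_ (key _ _))
  exact (abs_add_le _ _).trans (add_le_add (key _ _) (key _ _))

private theorem log_sub4 {x y : ℝ} (hx : 1 ≤ x) (hy : 1 ≤ y) : |Real.log x - Real.log y| ≤ |x - y| := by
  have key : ∀ a b : ℝ, 1 ≤ a → a ≤ b → Real.log b - Real.log a ≤ b - a := by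
    intro a b ha hab
    have ha' : 0 < a := by linarith
    have hb' : 0 < b := by linarith
    rw [← Real.log_div hb'.ne' ha'.ne']
    refine (Real.log_le_sub_one_of_pos (div_pos hb' ha')).trans ?_
    have h1 : b / a - 1 = (b - a) / a := by field_simp
    rw [h1]
    exact div_le_self (by linarith) ha
  rcases le_total x y with h | h
  · rw [abs_sub_comm, abs_sub_comm x y, abs_of_nonneg (by linarith : 0 ≤ y - x),
      abs_of_nonneg (sub_nonneg.2 (Real.log_le_log (by linarith) h))]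
    exact key x y hx h
  · rw [abs_of_nonneg (by linarith : 0 ≤ x - y),
      abs_of_nonneg (sub_nonneg.2 (Real.log_le_log (by linarith) h))]
    exact key y x hy h

/-- the determinant of the cocycle -/
theorem det_pM (a : ℝ) (b : ℕ → ℝ) (n : ℕ) (q : ℝ × ℝ) : (pM a b n q).det = 1 := by
  induction n with
  | zero => exact Matrix.det_one
  | succ n ih =>
    show (mt a (po a b n q).1 * pM a b n q).det = 1
    rw [Matrix.det_mul, ih, mul_one]
    unfold Pool.Agent.Helper95.AF.mt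
    rw [Matrix.det_fin_two]
    simp

theorem two_le_pM (a : ℝ) (b : ℕ → ℝ) (n : ℕ) (q : ℝ × ℝ) : 2 ≤ nn (pM a b n q) := by
  have h := det_pM a b n q
  rw [Matrix.det_fin_two] at h
  unfold nn
  generalize pM a b n q 0 0 = x at *
  generalize pM a b n q 0 1 = y at *
  generalize pM a b n q 1 0 = z at *
  generalize pM a b n q 1 1 = w at *
  have h1 : 1 ≤ |x| * |w| + |y| * |z| := by
    have h2 := abs_sub (x * w) (y * z)
    rw [h, abs_one, abs_mul, abs_mul] at h2
    exact h2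
  have hx := abs_nonneg x
  have hy := abs_nonneg y
  have hz := abs_nonneg z
  have hw := abs_nonneg w
  by_contra hcon
  rw [not_le] at hcon
  nlinarith [sq_nonneg (|x| - |w|), sq_nonneg (|y| - |z|), mul_nonneg hx hy, mul_nonneg hx hz,
    mul_nonneg hw hy, mul_nonneg hw hz]

private theorem sin_lip4 (x y : ℝ) : |Real.sin (2 * π * x) - Real.sin (2 * π * y)| ≤ 2 * π * |x - y| := by
  have h := Real.abs_sin_sub_sin_le (2 * π * x) (2 * π * y)
  refine h.trans (le_of_eq ?_)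
  rw [← mul_sub, abs_mul, abs_of_pos (by positivity : (0 : ℝ) < 2 * π)]

private theorem cos_lip4 (x y : ℝ) : |Real.cos (2 * π * x) - Real.cos (2 * π * y)| ≤ 2 * π * |x - y| := by
  have h := Real.abs_cos_sub_cos_le (2 * π * x) (2 * π * y)
  refine h.trans (le_of_eq ?_)
  rw [← mul_sub, abs_mul, abs_of_pos (by positivity : (0 : ℝ) < 2 * π)]

/-- **R3**: dependence of the cocycle on the data -/
theorem pM_near : ∃ C : ℝ, 1 ≤ C ∧ ∀ (Λ h : ℝ) (n : ℕ) (a a' : ℝ) (b b' : ℕ → ℝ), 1 ≤ Λ → |a| ≤ Λ → |a'| ≤ Λ →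
    0 ≤ h → |a - a'| ≤ h → (∀ j < n, |b j - b' j| ≤ h) → h * (C * Λ) ^ (C * (n + 1)) ≤ 1 →
    ∀ z, |Real.log (nn (pM a b n z)) - Real.log (nn (pM a' b' n z))| ≤ h * (C * Λ) ^ (C * (n + 1)) := by
  refine ⟨301, by norm_num, fun Λ h n a a' b b' hΛ ha ha' hh haa hb _ z => ?_⟩
  have hπ := Real.pi_pos
  have hπ1 : π ≤ 3.15 := by have := Real.pi_lt_d2; linarith
  obtain ⟨L, hL⟩ : ∃ L : ℝ, L = 4 + 2 * π * Λ := ⟨_, rfl⟩
  obtain ⟨C, hC⟩ : ∃ C : ℝ, C = 2 * π + 2 * π * Λ * (2 * π * 2) := ⟨_, rfl⟩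
  obtain ⟨Θ, hΘ⟩ : ∃ Θ : ℝ, Θ = L ^ 2 + 2 * C := ⟨_, rfl⟩
  have hΛ0 : 0 ≤ Λ := by linarith
  have hL4 : 4 ≤ L := by rw [hL]; nlinarith [mul_nonneg hπ.le hΛ0]
  have hL0 : 0 ≤ L := by linarith
  have hC0 : 0 ≤ C := by rw [hC]; positivity
  have hLC : 2 * C + L ≤ Θ := by nlinarith
  have hL2 : L ^ 2 ≤ Θ := by linarith
  have hΘ0 : 0 ≤ Θ := by nlinarith
  -- the bound of the entries
  have hv : ∀ (a x : ℝ), |a| ≤ Λ → |2 + 2 * π * a * Real.cos (2 * π * x)| + 1 ≤ L := by
    intro a x ha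
    have h1 : |2 * π * a * Real.cos (2 * π * x)| ≤ 2 * π * Λ := by
      rw [abs_mul, abs_mul, abs_of_pos (by positivity : (0 : ℝ) < 2 * π)]
      calc 2 * π * |a| * |Real.cos (2 * π * x)| ≤ 2 * π * Λ * 1 := by
            gcongr
            exact Real.abs_cos_le_one _
        _ = _ := mul_one _
    have h2 := abs_add_le 2 (2 * π * a * Real.cos (2 * π * x))
    rw [abs_of_pos (by norm_num : (0 : ℝ) < 2)] at h2
    rw [hL]
    linarith
  -- the orbits
  have h1 : ∀ m ≤ n, |(po a b m z).1 - (po a' b' m z).1| ≤ L ^ m * (2 * h) ∧ |(po a b m z).2 - (po a' b' m z).2| ≤ L ^ m * (2 * h) := by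
    intro m
    induction m with
    | zero =>
      intro _
      show |z.1 - z.1| ≤ _ ∧ |z.2 - z.2| ≤ _
      rw [sub_self, sub_self, abs_zero, pow_zero, one_mul]
      exact ⟨by linarith, by linarith⟩
    | succ m ih =>
      intro hm
      obtain ⟨i1, i2⟩ := ih (by omega)
      have hbm := hb m (by omega)
      obtain ⟨x, hx⟩ : ∃ x : ℝ, x = (po a b m z).1 := ⟨_, rfl⟩
      obtain ⟨y, hy⟩ : ∃ y : ℝ, y = (po a b m z).2 := ⟨_, rfl⟩
      obtain ⟨x', hx'⟩ : ∃ x' : ℝ, x' = (po a' b' m z).1 := ⟨_, rfl⟩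
      obtain ⟨y', hy'⟩ : ∃ y' : ℝ, y' = (po a' b' m z).2 := ⟨_, rfl⟩
      rw [← hx, ← hx'] at i1
      rw [← hy, ← hy'] at i2
      show |(2 * (po a b m z).1 - (po a b m z).2 + a * Real.sin (2 * π * (po a b m z).1) + b m) -
          (2 * (po a' b' m z).1 - (po a' b' m z).2 + a' * Real.sin (2 * π * (po a' b' m z).1) + b' m)| ≤ _ ∧
        |(po a b m z).1 - (po a' b' m z).1| ≤ _
      rw [← hx, ← hx', ← hy, ← hy']
      have hE : 0 ≤ L ^ m * (2 * h) := by positivity
      have hE1 : 2 * h ≤ L ^ m * (2 * h) := le_mul_of_one_le_left (by linarith) (one_le_pow₀ (by linarith))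
      have hsin : |a * Real.sin (2 * π * x) - a' * Real.sin (2 * π * x')| ≤ h + Λ * (2 * π * |x - x'|) := by
        have e : a * Real.sin (2 * π * x) - a' * Real.sin (2 * π * x') =
            (a - a') * Real.sin (2 * π * x) + a' * (Real.sin (2 * π * x) - Real.sin (2 * π * x')) := by ring
        rw [e]
        refine (abs_add_le _ _).trans ?_
        rw [abs_mul, abs_mul]
        have s1 := Real.abs_sin_le_one (2 * π * x)
        have s2 := sin_lip4 x x'
        have t1 : |a - a'| * |Real.sin (2 * π * x)| ≤ h * 1 := mul_le_mul haa s1 (abs_nonneg _) hh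
        have t2 : |a'| * |Real.sin (2 * π * x) - Real.sin (2 * π * x')| ≤ Λ * (2 * π * |x - x'|) :=
          mul_le_mul ha' s2 (abs_nonneg _) hΛ0
        linarith
      have hcomb : Λ * (2 * π * |x - x'|) ≤ Λ * (2 * π * (L ^ m * (2 * h))) := by gcongr
      constructor
      · have e : 2 * x - y + a * Real.sin (2 * π * x) + b m - (2 * x' - y' + a' * Real.sin (2 * π * x') + b' m) =
            2 * (x - x') - (y - y') + (a * Real.sin (2 * π * x) - a' * Real.sin (2 * π * x')) + (b m - b' m) := by ring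
        rw [e]
        have t1 := abs_add_le (2 * (x - x') - (y - y') + (a * Real.sin (2 * π * x) - a' * Real.sin (2 * π * x'))) (b m - b' m)
        have t2 := abs_add_le (2 * (x - x') - (y - y')) (a * Real.sin (2 * π * x) - a' * Real.sin (2 * π * x'))
        have t3 := abs_sub (2 * (x - x')) (y - y')
        rw [abs_mul, abs_of_pos (by norm_num : (0 : ℝ) < 2)] at t3
        have e2 : L ^ (m + 1) * (2 * h) = (4 + 2 * π * Λ) * (L ^ m * (2 * h)) := by rw [pow_succ, ← hL]; ring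
        rw [e2]
        nlinarith
      · refine i1.trans ?_
        have e2 : L ^ (m + 1) * (2 * h) = L * (L ^ m * (2 * h)) := by rw [pow_succ]; ring
        rw [e2]
        nlinarith
  have h2 : ∀ m ≤ n, nn (pM a b m z) ≤ 2 * L ^ m := by
    intro m
    induction m with
    | zero =>
      intro _
      show nn (1 : Matrix (Fin 2) (Fin 2) ℝ) ≤ _
      unfold nn
      norm_num
    | succ m ih =>
      intro hm
      show nn (mt a (po a b m z).1 * pM a b m z) ≤ _
      refine (nn_mt4 _ _ _).trans ?_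
      calc (|2 + 2 * π * a * Real.cos (2 * π * (po a b m z).1)| + 1) * nn (pM a b m z)
          ≤ L * (2 * L ^ m) := mul_le_mul (hv a _ ha) (ih (by omega)) (nn_nonneg4 _) hL0
        _ = 2 * L ^ (m + 1) := by ring
  have h3 : ∀ m ≤ n, nn (pM a b m z - pM a' b' m z) ≤ Θ ^ m * h := by
    intro m
    induction m with
    | zero =>
      intro _
      show nn ((1 : Matrix (Fin 2) (Fin 2) ℝ) - 1) ≤ _
      rw [sub_self]
      unfold nn
      simpa using hh
    | succ m ih =>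
      intro hm
      show nn (mt a (po a b m z).1 * pM a b m z - mt a' (po a' b' m z).1 * pM a' b' m z) ≤ _
      refine (nn_diff4 _ _ _ _ _ _).trans ?_
      have i1 := (h1 m (by omega)).1
      obtain ⟨x, hx⟩ : ∃ x : ℝ, x = (po a b m z).1 := ⟨_, rfl⟩
      obtain ⟨x', hx'⟩ : ∃ x' : ℝ, x' = (po a' b' m z).1 := ⟨_, rfl⟩
      rw [← hx, ← hx'] at i1 ⊢
      have hLm : 1 ≤ L ^ m := one_le_pow₀ (by linarith)
      have h6 : |(2 + 2 * π * a * Real.cos (2 * π * x)) - (2 + 2 * π * a' * Real.cos (2 * π * x'))| ≤ C * (L ^ m * h) := by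
        have e : (2 + 2 * π * a * Real.cos (2 * π * x)) - (2 + 2 * π * a' * Real.cos (2 * π * x')) =
            2 * π * (a - a') * Real.cos (2 * π * x) + 2 * π * a' * (Real.cos (2 * π * x) - Real.cos (2 * π * x')) := by ring
        rw [e]
        refine (abs_add_le _ _).trans ?_
        rw [abs_mul (2 * π * (a - a')), abs_mul (2 * π) (a - a'), abs_mul (2 * π * a'), abs_mul (2 * π) a',
          abs_of_pos (by positivity : (0 : ℝ) < 2 * π)]
        have s1 := Real.abs_cos_le_one (2 * π * x)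
        have s2 := cos_lip4 x x'
        have t1 : 2 * π * |a - a'| * |Real.cos (2 * π * x)| ≤ 2 * π * h * 1 := by gcongr
        have t2 : 2 * π * |a'| * |Real.cos (2 * π * x) - Real.cos (2 * π * x')| ≤ 2 * π * Λ * (2 * π * (L ^ m * (2 * h))) := by
          refine mul_le_mul (by gcongr) (s2.trans (by gcongr)) (abs_nonneg _) (by positivity)
        have t3 : 2 * π * h * 1 ≤ 2 * π * (L ^ m * h) := by
          have : h ≤ L ^ m * h := le_mul_of_one_le_left hh hLm
          have := mul_le_mul_of_nonneg_left this (by positivity : (0 : ℝ) ≤ 2 * π)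
          linarith
        have e3 : C * (L ^ m * h) = 2 * π * (L ^ m * h) + 2 * π * Λ * (2 * π * (L ^ m * (2 * h))) := by rw [hC]; ring
        rw [e3]
        linarith
      have h10 : L ^ m * L ^ m ≤ Θ ^ m := by
        rw [← mul_pow, ← pow_two]
        exact pow_le_pow_left₀ (by positivity) hL2 m
      calc |(2 + 2 * π * a * Real.cos (2 * π * x)) - (2 + 2 * π * a' * Real.cos (2 * π * x'))| * nn (pM a b m z) +
            (|2 + 2 * π * a' * Real.cos (2 * π * x')| + 1) * nn (pM a b m z - pM a' b' m z)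
          ≤ C * (L ^ m * h) * (2 * L ^ m) + L * (Θ ^ m * h) := by
            refine add_le_add (mul_le_mul h6 (h2 m (by omega)) (nn_nonneg4 _) (by positivity))
              (mul_le_mul (hv a' _ ha') (ih (by omega)) (nn_nonneg4 _) hL0)
        _ = 2 * C * (L ^ m * L ^ m) * h + L * (Θ ^ m * h) := by ring
        _ ≤ 2 * C * Θ ^ m * h + L * (Θ ^ m * h) := by gcongr
        _ = (2 * C + L) * (Θ ^ m * h) := by ring
        _ ≤ Θ * (Θ ^ m * h) := by
            have : 0 ≤ Θ ^ m * h := mul_nonneg (pow_nonneg hΘ0 m) hh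
            gcongr
        _ = Θ ^ (m + 1) * h := by ring
  have h4 := two_le_pM a b n z
  have h5 := two_le_pM a' b' n z
  refine (log_sub4 (by linarith) (by linarith)).trans ((nn_sub4 _ _).trans ((h3 n le_rfl).trans ?_))
  rw [mul_comm]
  refine mul_le_mul_of_nonneg_left ?_ hh
  have hΘ1 : Θ ≤ (301 * Λ) ^ 2 := by
    have l1 : L ≤ 11 * Λ := by rw [hL]; nlinarith
    have l2 : L ^ 2 ≤ (11 * Λ) ^ 2 := pow_le_pow_left₀ hL0 l1 2
    have hπ2 : π * π ≤ 10 := by nlinarith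
    have l3 : C ≤ 90 * Λ := by
      rw [hC]
      nlinarith
    have l4 : Λ ≤ Λ ^ 2 := by nlinarith
    rw [hΘ]
    nlinarith
  have hbase : (1 : ℝ) ≤ 301 * Λ := by linarith
  calc Θ ^ n ≤ ((301 * Λ) ^ 2) ^ n := pow_le_pow_left₀ hΘ0 hΘ1 n
    _ = (301 * Λ) ^ ((2 * n : ℕ) : ℝ) := by rw [← pow_mul, Real.rpow_natCast]
    _ ≤ (301 * Λ) ^ ((301 : ℝ) * (n + 1)) := by
      refine Real.rpow_le_rpow_of_exponent_le hbase ?_
      push_cast
      have : (0 : ℝ) ≤ n := Nat.cast_nonneg n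
      nlinarith

end Pool.Agent.Helper4.AF
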